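import Pool.Agent.X31.W9
import Pool.Agent.X31.M3

/-!
# The variance of the primes in progressions with an error term which saves an arbitrary power of the logarithm, for all
# the moduli near the values of bilinear functions at pairs of integers with missing digits

`C₁`, `C₂` are sets of integers with `mᵢ` digits in base `bᵢ` whose digit at `bᵢ ^ j` is in `𝒟ᵢ j`, where the sets
`𝒟ᵢ j` of allowed digits are arbitrary with at least TWO elements (for instance: the integers with the decimal digits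
`0` and `1` only; the product of the two sets can be as thin as `N ^ ε`), `θ` is a real number and `g`, `h` are
ARBITRARY real functions. The values considered are `θ x y + g(x) + h(y)`; for `θ = 1`, `g = h = 0` these are the
products of two integers with missing digits.
For almost all elements `n` of an ARBITRARY dense subset `M` of `C₁ × C₂`, ALL moduli `Q` within `log ^ D N` of the value at `n` (with
`Q ≥ N / log ^ κ N`) satisfy, for ALL real `X` with `Q ≤ X ≤ Q log ^ κ N`,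
`G(X, Q) = X log X - X - X ^ 2 / φ(Q) + 2 ∑_{1 ≤ h ≤ X / Q} 𝔖(h Q) (X - h Q) + O(X / log ^ A N)`,
where `𝔖(m)` is the singular series for the prime pairs with difference `m`. (The asymptotic formula
`X log Q - C_Q X` of the question comes from this main term when `X / Q` tends to infinity.)

The minimal real additive energy of these values is from `Pool.Agent.X31.M1` - `M3` (in this run);
the pair correlations for almost all differences in families of small energy (`Pool.Agent.TH935.DF`) and the expansion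
of the variance (`Pool.Agent.TH894.PV`) are from the starting files; new in this run: `Pool.Agent.X31.W6` - `W9`.

Definition used: `Pool.Agent.H560R3.GB.C₂`, the twin prime constant `∏_{p > 2} (1 - 1 / (p - 1) ^ 2)`
(the infimum of the partial products).
-/

set_option autoImplicit false

namespace Pool.Agent.Results.MP_5dd4bb_nt.BilinearModuli

open Finset Pool.Agent.H560R3.GB

/-- the integers `0 ≤ n < b ^ m` whose digit at `b ^ j` in base `b` is in `𝒟 j`, for all `j < m` -/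
def Digits (b : ℕ) (𝒟 : ℕ → Finset ℕ) (m : ℕ) : Finset ℕ :=
  (range (b ^ m)).filter (fun n => ∀ j < m, n / b ^ j % b ∈ 𝒟 j)

/-- the bilinear function `θ x y + g(x) + h(y)` -/
def bil (θ : ℝ) (g h : ℕ → ℝ) (n : ℕ × ℕ) : ℝ := θ * ((n.1 : ℝ) * n.2) + g n.1 + h n.2

/-- `M` is a set of pairs in `Digits b₁ 𝒟₁ m₁ × Digits b₂ 𝒟₂ m₂` with at least `1 / log ^ D N` of all these pairs, where
all sets `𝒟ᵢ j` of allowed digits have at least two elements and `m₁ ≤ l m₂`, `m₂ ≤ l m₁`; the number `θ` is at most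
`log ^ D N` and at least `N / (b₁ ^ m₁ b₂ ^ m₂ log ^ D N)` in absolute value; `g` and `h` are ARBITRARY functions with
`|bil θ g h| ≤ N` on `M`. -/
def Fam (b₁ b₂ l D N m₁ m₂ : ℕ) (𝒟₁ 𝒟₂ : ℕ → Finset ℕ) (θ : ℝ) (g h : ℕ → ℝ) (M : Finset (ℕ × ℕ)) : Prop :=
  (∀ j, 𝒟₁ j ⊆ range b₁ ∧ 2 ≤ (𝒟₁ j).card) ∧ (∀ j, 𝒟₂ j ⊆ range b₂ ∧ 2 ≤ (𝒟₂ j).card) ∧
  m₁ ≤ l * m₂ ∧ m₂ ≤ l * m₁ ∧
  |θ| ≤ Real.log N ^ D ∧ (N : ℝ) / Real.log N ^ D ≤ |θ| * ((b₁ : ℝ) ^ m₁ * (b₂ : ℝ) ^ m₂) ∧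
  M ⊆ Digits b₁ 𝒟₁ m₁ ×ˢ Digits b₂ 𝒟₂ m₂ ∧
  ((Digits b₁ 𝒟₁ m₁).card * (Digits b₂ 𝒟₂ m₂).card : ℝ) / Real.log N ^ D ≤ M.card ∧ ∀ n ∈ M, |bil θ g h n| ≤ N

/-- `ψ(X; Q, a)`: the sum of `Λ(n)` over the `n ≤ X` with `n ≡ a mod Q` (`0 ≤ a < Q`) -/
noncomputable def psi (X : ℝ) (Q a : ℕ) : ℝ :=
  ∑ n ∈ (Icc 1 ⌊X⌋₊).filter (fun n => n % Q = a), ArithmeticFunction.vonMangoldt n

/-- the variance `G(X, Q)` of the question -/
noncomputable def G (X : ℝ) (Q : ℕ) : ℝ :=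
  ∑ a ∈ (range Q).filter (fun a => Nat.Coprime a Q), (psi X Q a - X / (Nat.totient Q : ℝ)) ^ 2

/-- the singular series for the prime pairs with difference `m`: zero for odd `m`, and
`2 C₂ ∏_{p ∣ m, p > 2} (p - 1) / (p - 2)` for even `m` -/
noncomputable def sing (m : ℕ) : ℝ :=
  if Even m then 2 * C₂ * ∏ p ∈ m.primeFactors.filter (fun p => 2 < p), ((p : ℝ) - 1) / ((p : ℝ) - 2) else 0

/-- the main term `X log X - X - X ^ 2 / φ(Q) + 2 ∑_{1 ≤ h ≤ X / Q} 𝔖(h Q) (X - h Q)` -/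
noncomputable def main (X : ℝ) (Q : ℕ) : ℝ :=
  X * Real.log X - X - X ^ 2 / (Nat.totient Q : ℝ) + 2 * ∑ h ∈ Icc 1 (⌊X⌋₊ / Q), sing (h * Q) * (X - h * Q)

lemma dat_of {b₁ b₂ l D N m₁ m₂ : ℕ} {𝒟₁ 𝒟₂ : ℕ → Finset ℕ} {θ : ℝ} {g h : ℕ → ℝ} {M : Finset (ℕ × ℕ)}
    (H : Fam b₁ b₂ l D N m₁ m₂ 𝒟₁ 𝒟₂ θ g h M) : Pool.Agent.X31.CT.Dat2 b₁ b₂ l D N m₁ m₂ 𝒟₁ 𝒟₂ θ g h M :=
  ⟨H.1, H.2.1, H.2.2.1, H.2.2.2.1, H.2.2.2.2.1, H.2.2.2.2.2.1, H.2.2.2.2.2.2.1, H.2.2.2.2.2.2.2.1,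
    H.2.2.2.2.2.2.2.2⟩

lemma main_eq (X : ℝ) (Q : ℕ) : main X Q = Pool.Agent.X31.fgMain X Q := by
  unfold main Pool.Agent.X31.fgMain
  congr 2
  apply sum_congr rfl
  intro h _
  unfold sing Pool.Agent.X31.SS
  rw [zero_add]
  congr 1
  · by_cases hev : Even (h * Q)
    · rw [if_pos hev, if_pos hev]
      have : (((0 : ℕ) : ℤ) - ((h * Q : ℕ) : ℤ)).natAbs = h * Q := by omega
      rw [this]
      rfl
    · rw [if_neg hev, if_neg hev]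
  · push_cast
    ring

/-- Let `b₁, b₂ ≥ 2` and `l ≥ 1` be integers. Let `A`, `D`, `κ`, `U` be natural numbers. For all sufficiently large `N`,
all numbers `m₁`, `m₂` of digits, ALL sets `𝒟ᵢ j` of allowed
digits, all `θ`, ALL functions `g`, `h` and all sets `M` of pairs with `Fam b₁ b₂ l D N m₁ m₂ 𝒟₁ 𝒟₂ θ g h M`:
for all but at most `#M / log ^ U N` elements `n` of `M`, ALL moduli `Q` with `|Q - bil θ g h n| ≤ log ^ D N` and
`Q ≥ N / log ^ κ N` satisfy `|G(X, Q) - main X Q| ≤ X / log ^ A N` for ALL real `X` with `Q ≤ X ≤ Q log ^ κ N`. -/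
theorem result (b₁ b₂ l : ℕ) (hb₁ : 2 ≤ b₁) (hb₂ : 2 ≤ b₂) (hl : 1 ≤ l) (A D κ U : ℕ) :
    ∃ N₀ : ℕ, ∀ N : ℕ, N₀ ≤ N →
      ∀ (m₁ m₂ : ℕ) (𝒟₁ 𝒟₂ : ℕ → Finset ℕ) (θ : ℝ) (g h : ℕ → ℝ) (M : Finset (ℕ × ℕ)),
      Fam b₁ b₂ l D N m₁ m₂ 𝒟₁ 𝒟₂ θ g h M →
      ∃ E : Finset (ℕ × ℕ), (E.card : ℝ) ≤ M.card / Real.log N ^ U ∧ ∀ n ∈ M, n ∉ E →
        ∀ Q : ℕ, |(Q : ℝ) - bil θ g h n| ≤ Real.log N ^ D → (N : ℝ) ≤ Q * Real.log N ^ κ →
          ∀ X : ℝ, (Q : ℝ) ≤ X → X ≤ Q * Real.log N ^ κ → |G X Q - main X Q| ≤ X / Real.log N ^ A := by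
  obtain ⟨N₀, h0⟩ := (Pool.Agent.X31.Sch_bil hb₁ hb₂ l hl).fg D κ A U
  refine ⟨N₀, fun N hN m₁ m₂ 𝒟₁ 𝒟₂ θ g h M hfam => ?_⟩
  obtain ⟨E, hE1, hE2⟩ := h0 N hN M (fun n => bil θ g h n) ⟨m₁, m₂, 𝒟₁, 𝒟₂, θ, g, h, dat_of hfam, fun _ => rfl⟩
  refine ⟨E, hE1, fun n hn hnE Q hQ hNQ X h1 h2 => ?_⟩
  rw [main_eq]
  exact hE2 n hn hnE Q hQ hNQ X h1 h2

end Pool.Agent.Results.MP_5dd4bb_nt.BilinearModuli
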