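import Pool.Agent.Results.MP_5dd4bb_nt.AlmostAllModuli
import Pool.Agent.X174.WinN

/-!
# The variance of primes in the residue classes modulo ALL moduli in windows around thin sequences

`G(X, k) = ∑_(A mod k, (A, k) = 1) (ψ(X; k, A) - X / φ(k)) ^ 2`. For every `ε > 0` there is `κ > 0` such that for every
sequence `v ≥ 1` of exponent of convergence at most `τ` (for `v_i = (i + 1) ^ a` this is `1 / a`, for `v_i = b ^ i` it is
`0`) and every `ρ < 1`, outside a set of `α > 0` of Hausdorff dimension at most `(1 - κ + τ) / (1 - ρ)` the following holds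
for all but finitely many `i`: for ALL moduli `k` with `|k - α v_i| ≤ v_i ^ ρ` and ALL real `X ≥ k`,
`G(X, k) ≥ X (log k - 1/2 log X - ε log X)`. The number of exceptions is from the starting result `AlmostAllModuli`.
-/

set_option autoImplicit false

open Finset

namespace Pool.Agent.Results.MP_5dd4bb_nt.ModuliInWindows

open Pool.Agent.X174 (ExpLe)

open Classical in
/-- the variance `G(X, k)` of the primes in the reduced residue classes modulo `k` -/
noncomputable def G (X : ℝ) (k : ℕ) : ℝ :=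
  ∑ A ∈ (range k).filter (fun A => A.Coprime k),
    ((∑ n ∈ (Icc 1 ⌊X⌋₊).filter (fun n => n ≡ A [MOD k]), ArithmeticFunction.vonMangoldt n) - X / Nat.totient k) ^ 2

/-- **Theorem.** For every `ε > 0` there is `κ > 0` such that for every sequence `v ≥ 1` of exponent of convergence at most
`τ ≥ 0` and every `ρ < 1` there is a set `E ⊂ ℝ` of Hausdorff dimension at most `(1 - κ + τ) / (1 - ρ)` with: for each
`α > 0` outside `E`, for all but finitely many `i`, ALL moduli `k ≥ 1` with `|k - α v_i| ≤ v_i ^ ρ` and ALL real `X ≥ k`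
satisfy `G(X, k) ≥ X (log k - 1/2 log X - ε log X)`. The sequences `v_i = (i + 1) ^ a` and `v_i = b ^ i` have exponent of
convergence at most `1 / a` and `0`. -/
theorem result :
    (∀ ε : ℝ, 0 < ε → ∃ κ : ℝ, 0 < κ ∧
      ∀ (v : ℕ → ℝ) (τ ρ : ℝ), (∀ i, 1 ≤ v i) → 0 ≤ τ → ExpLe v τ → ρ < 1 →
      ∃ E : Set ℝ, dimH E ≤ ENNReal.ofReal ((1 - κ + τ) / (1 - ρ)) ∧
        ∀ α : ℝ, 0 < α → α ∉ E → ∃ i₀ : ℕ, ∀ i : ℕ, i₀ ≤ i → ∀ k : ℕ, 1 ≤ k → |(k : ℝ) - α * v i| ≤ (v i) ^ ρ →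
          ∀ X : ℝ, (k : ℝ) ≤ X → X * (Real.log k - 1 / 2 * Real.log X - ε * Real.log X) ≤ G X k) ∧
    (∀ a : ℝ, 0 < a → ExpLe (fun n : ℕ => ((n : ℝ) + 1) ^ a) (1 / a)) ∧
    (∀ b : ℝ, 1 < b → ExpLe (fun n : ℕ => b ^ n) 0) := by
  classical
  refine ⟨fun ε hε => ?_, fun κ hκ => Pool.Agent.Y854.GM.expLe_pow κ hκ,
    fun b hb => Pool.Agent.Y854.GM.expLe_geom b hb⟩
  obtain ⟨κ₀, K₀, hκ₀, hK⟩ := AlmostAllModuli.result ε hε
  set κ : ℝ := min κ₀ (1 / 2) with hκdef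
  have hκa : κ ≤ κ₀ := min_le_left _ _
  have hκb : κ ≤ 1 / 2 := min_le_right _ _
  have hκ : 0 < κ := lt_min hκ₀ (by norm_num)
  refine ⟨κ, hκ, fun v τ ρ hv hτ hE hρ => ?_⟩
  set P : ℕ → Prop := fun k => ∃ X : ℝ, (k : ℝ) ≤ X ∧
      ∑ A ∈ (range k).filter (fun A => A.Coprime k),
        ((∑ n ∈ (Icc 1 ⌊X⌋₊).filter (fun n => n ≡ A [MOD k]), ArithmeticFunction.vonMangoldt n)
          - X / Nat.totient k) ^ 2
      < X * (Real.log k - 1 / 2 * Real.log X - ε * Real.log X) with hP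
  obtain ⟨B, hB, hcum⟩ := Pool.Agent.X174.cumN P (1 - κ) 1 (by linarith) zero_le_one (max ⌈K₀⌉₊ 1) (fun K hK1 => by
    have h1 : K₀ ≤ K := (Nat.le_ceil K₀).trans (by exact_mod_cast (le_max_left _ _).trans hK1)
    have h2 : (1 : ℝ) ≤ K := by exact_mod_cast (le_max_right _ _).trans hK1
    have h3 : {n : ℕ | K < n ∧ n ≤ 2 * K ∧ P n} = ((Ioc K (2 * K)).filter P : Set ℕ) := by
      ext n
      simp only [Set.mem_setOf_eq, coe_filter, mem_Ioc]
      tauto
    rw [h3, Set.ncard_coe_finset, one_mul]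
    refine le_trans ?_ ((hK K h1).trans (Real.rpow_le_rpow_of_exponent_le h2 (by linarith)))
    have h4 : ((Ioc K (2 * K)).filter P).card = ((Ioc K (2 * K)).filter (fun k : ℕ => ∃ X : ℝ, (k : ℝ) ≤ X ∧
      ∑ A ∈ (range k).filter (fun A => A.Coprime k),
        ((∑ n ∈ (Icc 1 ⌊X⌋₊).filter (fun n => n ≡ A [MOD k]), ArithmeticFunction.vonMangoldt n)
          - X / Nat.totient k) ^ 2
      < X * (Real.log k - 1 / 2 * Real.log X - ε * Real.log X))).card := by
      rfl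
    exact_mod_cast h4.le)
  obtain ⟨E, hE1, hE2⟩ := Pool.Agent.X174.winN P hv hτ hE (s := 1 - κ) (by linarith) hρ B hB hcum
  refine ⟨E, hE1, fun α hα hαE => ?_⟩
  obtain ⟨i₀, hi₀⟩ := hE2 α hα hαE
  refine ⟨i₀, fun i hi k hk hw X hX => ?_⟩
  have h5 := hi₀ i hi k hk hw
  rw [hP] at h5
  push Not at h5
  have h6 := h5 X hX
  unfold G
  exact h6

end Pool.Agent.Results.MP_5dd4bb_nt.ModuliInWindows
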