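import Pool.Agent.X31.W9
import Pool.Agent.X31.R3

/-!
# The variance of the primes in progressions with an error term which saves an arbitrary power of the logarithm, for all
# the moduli near the values of real powers and generalised polynomials at integers with missing digits

`f(t) = ∑ u_x t ^ x` is an arbitrary finite real combination of real powers of `t` whose largest exponent `c > 0` is not
an integer (for instance `t ^ {3/2}`, or `t ^ {1/10}`), `C` is the set of the integers with `m` digits in base `b` whose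
digit at `b ^ j` is in `𝒟 j`, where the sets `𝒟 j` of allowed digits are arbitrary with at least TWO elements (for
instance: the integers with the decimal digits `0` and `1` only; such sets can be as thin as `N ^ ε`). The values
considered are `b₀ + θ f(n)`, `n ∈ C`.
For almost all elements `n` of an ARBITRARY dense subset `M` of `C`, ALL moduli `Q` within `log ^ D N` of the value at `n` (with
`Q ≥ N / log ^ κ N`) satisfy, for ALL real `X` with `Q ≤ X ≤ Q log ^ κ N`,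
`G(X, Q) = X log X - X - X ^ 2 / φ(Q) + 2 ∑_{1 ≤ h ≤ X / Q} 𝔖(h Q) (X - h Q) + O(X / log ^ A N)`,
where `𝔖(m)` is the singular series for the prime pairs with difference `m`. (The asymptotic formula
`X log Q - C_Q X` of the question comes from this main term when `X / Q` tends to infinity.)

The minimal real additive energy of these values is from `Pool.Agent.X31.R1` - `R3` (in this run);
the pair correlations for almost all differences in families of small energy (`Pool.Agent.TH935.DF`) and the expansion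
of the variance (`Pool.Agent.TH894.PV`) are from the starting files; new in this run: `Pool.Agent.X31.W6` - `W9`.

Definition used: `Pool.Agent.H560R3.GB.C₂`, the twin prime constant `∏_{p > 2} (1 - 1 / (p - 1) ^ 2)`
(the infimum of the partial products).
-/

set_option autoImplicit false

namespace Pool.Agent.Results.MP_5dd4bb_nt.PowerModuli

open Finset Pool.Agent.H560R3.GB

/-- the integers `0 ≤ n < b ^ m` whose digit at `b ^ j` in base `b` is in `𝒟 j`, for all `j < m` -/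
def Digits (b : ℕ) (𝒟 : ℕ → Finset ℕ) (m : ℕ) : Finset ℕ :=
  (range (b ^ m)).filter (fun n => ∀ j < m, n / b ^ j % b ∈ 𝒟 j)

/-- the generalised polynomial with the exponents `x ∈ F` and the coefficients `u x` -/
noncomputable def f (F : Finset ℝ) (u : ℝ → ℝ) (t : ℝ) : ℝ := ∑ x ∈ F, u x * t ^ x

/-- `M` is a subset with at least `#(Digits b 𝒟 m) / log ^ D N` elements of the set `Digits b 𝒟 m`, where all sets `𝒟 j`
of allowed digits have at least two elements; the number `θ` is at most `log ^ D N` and at least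
`N / (b ^ (c m) log ^ D N)` in absolute value, and `|b₀ + θ f(n)| ≤ N` for all `n ∈ M`. -/
def Fam (b : ℕ) (F : Finset ℝ) (u : ℝ → ℝ) (c : ℝ) (D N m : ℕ) (𝒟 : ℕ → Finset ℕ) (θ b₀ : ℝ) (M : Finset ℕ) : Prop :=
  (∀ j, 𝒟 j ⊆ range b ∧ 2 ≤ (𝒟 j).card) ∧
  |θ| ≤ Real.log N ^ D ∧ (N : ℝ) / Real.log N ^ D ≤ |θ| * ((b : ℝ) ^ m) ^ c ∧
  M ⊆ Digits b 𝒟 m ∧ ((Digits b 𝒟 m).card : ℝ) / Real.log N ^ D ≤ M.card ∧ ∀ n ∈ M, |b₀ + θ * f F u n| ≤ N

/-- `ψ(X; Q, a)`: the sum of `Λ(n)` over the `n ≤ X` with `n ≡ a mod Q` (`0 ≤ a < Q`) -/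
noncomputable def psi (X : ℝ) (Q a : ℕ) : ℝ :=
  ∑ n ∈ (Icc 1 ⌊X⌋₊).filter (fun n => n % Q = a), ArithmeticFunction.vonMangoldt n

/-- the variance `G(X, Q)` of the question -/
noncomputable def G (X : ℝ) (Q : ℕ) : ℝ :=
  ∑ a ∈ (range Q).filter (fun a => Nat.Coprime a Q), (psi X Q a - X / (Nat.totient Q : ℝ)) ^ 2

/-- the singular series for the prime pairs with difference `m`: zero for odd `m`, and
`2 C₂ ∏_{p ∣ m, p > 2} (p - 1) / (p - 2)` for even `m` -/
noncomputable def sing (m : ℕ) : ℝ :=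
  if Even m then 2 * C₂ * ∏ p ∈ m.primeFactors.filter (fun p => 2 < p), ((p : ℝ) - 1) / ((p : ℝ) - 2) else 0

/-- the main term `X log X - X - X ^ 2 / φ(Q) + 2 ∑_{1 ≤ h ≤ X / Q} 𝔖(h Q) (X - h Q)` -/
noncomputable def main (X : ℝ) (Q : ℕ) : ℝ :=
  X * Real.log X - X - X ^ 2 / (Nat.totient Q : ℝ) + 2 * ∑ h ∈ Icc 1 (⌊X⌋₊ / Q), sing (h * Q) * (X - h * Q)

lemma dat_of {b : ℕ} {F : Finset ℝ} {u : ℝ → ℝ} {c : ℝ} {D N m : ℕ} {𝒟 : ℕ → Finset ℕ} {θ b₀ : ℝ} {M : Finset ℕ}
    (h : Fam b F u c D N m 𝒟 θ b₀ M) :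
    Pool.Agent.X31.CT.Dat3 b c D N m 𝒟 θ b₀ (fun n => Pool.Agent.X31.gp F u n) M :=
  ⟨h.1, h.2.1, h.2.2.1, h.2.2.2.1, h.2.2.2.2.1, h.2.2.2.2.2⟩

lemma main_eq (X : ℝ) (Q : ℕ) : main X Q = Pool.Agent.X31.fgMain X Q := by
  unfold main Pool.Agent.X31.fgMain
  congr 2
  apply sum_congr rfl
  intro h _
  unfold sing Pool.Agent.X31.SS
  rw [zero_add]
  congr 1
  · by_cases hev : Even (h * Q)
    · rw [if_pos hev, if_pos hev]
      have : (((0 : ℕ) : ℤ) - ((h * Q : ℕ) : ℤ)).natAbs = h * Q := by omega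
      rw [this]
      rfl
    · rw [if_neg hev, if_neg hev]
  · push_cast
    ring

/-- Let `b ≥ 2` be an integer, let `F` be a finite set of real numbers whose maximum `c > 0` is NOT an integer,
`u c ≠ 0`, and `f(t) = ∑_{x ∈ F} u x * t ^ x`. Let `A`, `D`, `κ`, `U` be natural numbers. For all sufficiently large `N`,
all numbers `m` of digits, ALL sets `𝒟 j` of allowed digits, all
real `θ`, `b₀` and all sets `M` with `Fam b F u c D N m 𝒟 θ b₀ M`:
for all but at most `#M / log ^ U N` elements `n` of `M`, ALL moduli `Q` with `|Q - (b₀ + θ * f F u n)| ≤ log ^ D N` and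
`Q ≥ N / log ^ κ N` satisfy `|G(X, Q) - main X Q| ≤ X / log ^ A N` for ALL real `X` with `Q ≤ X ≤ Q log ^ κ N`. -/
theorem result (b : ℕ) (hb : 2 ≤ b) (F : Finset ℝ) (u : ℝ → ℝ) (c : ℝ) (hcF : c ∈ F)
    (hmax : ∀ x ∈ F, x ≤ c) (huc : u c ≠ 0) (hc : 0 < c) (hcn : ∀ k : ℕ, c ≠ k) (A D κ U : ℕ) :
    ∃ N₀ : ℕ, ∀ N : ℕ, N₀ ≤ N →
      ∀ (m : ℕ) (𝒟 : ℕ → Finset ℕ) (θ b₀ : ℝ) (M : Finset ℕ), Fam b F u c D N m 𝒟 θ b₀ M →
      ∃ E : Finset ℕ, (E.card : ℝ) ≤ M.card / Real.log N ^ U ∧ ∀ n ∈ M, n ∉ E →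
        ∀ Q : ℕ, |(Q : ℝ) - (b₀ + θ * f F u n)| ≤ Real.log N ^ D → (N : ℝ) ≤ Q * Real.log N ^ κ →
          ∀ X : ℝ, (Q : ℝ) ≤ X → X ≤ Q * Real.log N ^ κ → |G X Q - main X Q| ≤ X / Real.log N ^ A := by
  obtain ⟨N₀, h0⟩ := (Pool.Agent.X31.Sch_rp hb F u c hcF hmax huc hc hcn).fg D κ A U
  refine ⟨N₀, fun N hN m 𝒟 θ b₀ M hfam => ?_⟩
  obtain ⟨E, hE1, hE2⟩ := h0 N hN M (fun n => (b₀ + θ * f F u n)) ⟨m, 𝒟, θ, b₀, dat_of hfam, fun _ => rfl⟩
  refine ⟨E, hE1, fun n hn hnE Q hQ hNQ X h1 h2 => ?_⟩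
  rw [main_eq]
  exact hE2 n hn hnE Q hQ hNQ X h1 h2

end Pool.Agent.Results.MP_5dd4bb_nt.PowerModuli
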